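import Pool.Agent.V308.K5O.Ord5
import Pool.Agent.H37R3.K5.UAFin

/-! A pattern with one triple and its trees (generated data, checked by the kernel). -/

set_option autoImplicit false
set_option maxRecDepth 100000
set_option maxHeartbeats 4000000

namespace Pool.Agent.V308.K5O
open Pool.Agent.Y47.BU Pool.Agent.Y47.BU5

/-- two vertices and an independent class, with all triples containing the two vertices -/
def PK : Pt := ⟨3, [(0, 1, 2, 1)], [(2, 0, 0), (2, 1, 0)]⟩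

/-- a tree -/
def tK0 : Tr :=
  (.n 1 (.n 2 (.f 17) (.n 3 (.f 25) (.n 4 (.f 33) (.k 543227968)))) (.n 6 (.f 64) (.n 2 (.n 3
  (.f 26) (.n 4 (.f 34) (.k 543195200))) (.n 4 (.n 5 (.f 44) (.k 675315776)) (.k 541098048)))))

theorem oK0 : ck5 PK 131063 [] tK0 = true := by decide +kernel

/-- a tree -/
def tK1 : Tr :=
  (.n 1 (.n 2 (.f 17) (.n 3 (.f 25) (.n 4 (.f 33) (.k 543227968)))) (.n 6 (.f 64) (.n 4 (.n 2
  (.f 34) (.n 5 (.f 44) (.k 675315776))) (.n 2 (.n 3 (.f 26) (.k 543195200)) (.k 541098048)))))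

theorem oK1 : ck5 PK 262135 [] tK1 = true := by decide +kernel

/-- a tree -/
def tK2 : Tr :=
  (.n 1 (.n 2 (.f 17) (.n 3 (.f 25) (.n 5 (.f 41) (.k 677445696)))) (.n 6 (.f 64) (.n 3 (.n 2
  (.f 26) (.n 4 (.f 35) (.n 5 (.f 43) (.k 679510080)))) (.n 2 (.n 5 (.f 42) (.k 677412928)) (.k
  406880320)))))

theorem oK2 : ck5 PK 520159 [] tK2 = true := by decide +kernel

theorem okK : ∀ m ∈ Pool.Agent.H37R3.UA.MS, ∃ tr, ck5 PK m [] tr = true := by
  intro m hm
  simp only [Pool.Agent.H37R3.UA.MS, List.mem_cons, List.not_mem_nil, or_false] at hm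
  rcases hm with rfl | rfl | rfl
  exacts [⟨_, oK0⟩, ⟨_, oK1⟩, ⟨_, oK2⟩]

end Pool.Agent.V308.K5O
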