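import Pool.Agent.V308.K5O.OCnt5
import Pool.Agent.V308.K5O.DatK
import Pool.Agent.V308.K5O.DatX
import Pool.Agent.Y47.BU5.CUA
import Pool.Agent.Y47.BU.Ind

/-! `K_5^3`-free 3-graphs: the conclusions for one excluded 3-graph and for order-size pairs, and
the two-class construction. -/

set_option autoImplicit false
set_option maxRecDepth 100000
set_option maxHeartbeats 4000000
open Finset
open scoped Classical

namespace Pool.Agent.V308.K5O
open Pool.Agent.Y47.BU Pool.Agent.Y47.BU5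
open Pool.Agent.H122R2.N6 Pool.Agent.H37R3.Pen Pool.Agent.H37R3.Cop Pool.Agent.H37R3.CopL
open Pool.Agent.H37R3.K5
open Pool.Agent.TH773 Pool.Agent.TH773.ST

/-- the density `3/4` for a 3-graph `F` which arises from a pattern -/
theorem ind_main5 {MS : List ℕ} {FS : List (Finset (Finset (Fin 6)))} {C : ℕ}
    (hC : Cert MS FS C) (P : Pt) (hok : ∀ m ∈ MS, ∃ tr, ck5 P m [] tr = true)
    {α : Type} [Fintype α] {F : Finset (Finset α)}
    {A : Finset (Finset (Fin P.k))} {X : Finset (Fin P.k)} (hk : 0 < P.k)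
    (hA : ∀ t ∈ A, t.card = 3)
    (hT : ∀ a b c : Fin P.k, a < b → b < c →
      (a.val, b.val, c.val, if ({a, b, c} : Finset (Fin P.k)) ∈ A then 1 else 0) ∈ P.T)
    (hR : ∀ a ∈ X, ∀ b : Fin P.k, b ≠ a → (a.val, b.val, 0) ∈ P.R)
    (φ : α → Fin P.k) (hX : ∀ u v, u ≠ v → φ u = φ v → φ u ∈ X)
    (hF : ∀ u v w : α, u ≠ v → u ≠ w → v ≠ w →
      (({u, v, w} : Finset α) ∈ F ↔ ({φ u, φ v, φ w} : Finset (Fin P.k)) ∈ A))
    {ε : ℝ} (hε : 0 < ε) : ∃ δ : ℝ, 0 < δ ∧ ∃ n0 : ℕ, ∀ n, n0 ≤ n →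
      ∀ H : Finset (Finset (Fin n)), (∀ e ∈ H, e.card = 3) → K53Free H →
      ((indSet F H).card : ℝ) ≤ δ * (n : ℝ) ^ Fintype.card α →
      (H.card : ℝ) ≤ (3 / 4 + ε) * (n.choose 3 : ℝ) := by
  obtain ⟨K, n0, h⟩ := main5 hC P (Fintype.card α + 1) hok hε
  refine ⟨1 / ((K : ℝ) + 1), by positivity, n0, fun n hn H h3 hK hl => ?_⟩
  refine h n hn H h3 hK ?_
  have h1 := occ_ind hk hA hT hR φ hX hF H
  set s := Fintype.card α with hs
  have h2 : K * (indSet F H).card ≤ n ^ s := by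
    have a1 : (K : ℝ) * (indSet F H).card ≤ (n : ℝ) ^ s := by
      rw [div_mul_eq_mul_div, one_mul, le_div_iff₀ (by positivity)] at hl
      have : (0 : ℝ) ≤ ((indSet F H).card : ℝ) := Nat.cast_nonneg _
      nlinarith
    exact_mod_cast a1
  have h3 : s + 1 ≤ P.k * (s + 1) := Nat.le_mul_of_pos_left _ hk
  calc K * (occS (tri H) P (s + 1)).card ≤
        K * ((indSet F H).card * n ^ (P.k * (s + 1) - s)) := Nat.mul_le_mul_left _ h1
    _ = (K * (indSet F H).card) * n ^ (P.k * (s + 1) - s) := by ring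
    _ ≤ n ^ s * n ^ (P.k * (s + 1) - s) := Nat.mul_le_mul_right _ h2
    _ = n ^ (P.k * (s + 1)) := by rw [← pow_add]; congr 1; omega

/-- the density `3/4` for an order-size pair -/
theorem spans_main5 {k q : ℕ} (hk : 0 < k) (h : ∀ m ∈ Pool.Agent.H37R3.UA.MS, RamP5 k q m)
    {ε : ℝ} (hε : 0 < ε) : ∃ δ : ℝ, 0 < δ ∧ ∃ n0 : ℕ, ∀ n, n0 ≤ n →
      ∀ H : Finset (Finset (Fin n)), (∀ e ∈ H, e.card = 3) → K53Free H →
      (Turan34.spans H k q : ℝ) ≤ δ * (n : ℝ) ^ k →
      (H.card : ℝ) ≤ (3 / 4 + ε) * (n.choose 3 : ℝ) := by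
  obtain ⟨K, n0, h⟩ := mainO5 certUA h hε
  have hk0 : 0 < k ^ k := Nat.pow_pos hk
  have hk1 : (0 : ℝ) < ((k ^ k : ℕ) : ℝ) := by exact_mod_cast hk0
  refine ⟨1 / (((k ^ k : ℕ) : ℝ) * ((K : ℝ) + 1)), by positivity, n0, fun n hn H h3 hK hP => ?_⟩
  exact h n hn H h3 hK (Pool.Agent.TH773.CL.nat_of_real rfl hk0 hP (gS_le h3 q))

/-! ## The two-class construction -/

/-- Turán's construction: the triples that meet both `A` and its complement. -/
noncomputable def twoClass {n : ℕ} (A : Finset (Fin n)) : Finset (Finset (Fin n)) :=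
  univ.filter fun e => e.card = 3 ∧ ¬ e ⊆ A ∧ ¬ e ⊆ Aᶜ

theorem six_choose (n : ℕ) : 6 * (n.choose 3 : ℤ) = n * (n - 1) * (n - 2) := by
  induction n with
  | zero => simp
  | succ n ih =>
    have h2 : 2 * (n.choose 2 : ℤ) = n * (n - 1) := by
      have h := Nat.triangle_succ (n - 1)
      rcases n with _ | n
      · simp
      · have h3 : (n + 1).choose 2 * 2 = (n + 1) * n := by
          rw [Nat.choose_two_right, Nat.add_sub_cancel]
          exact Nat.div_mul_cancel (by
            rw [mul_comm]; exact (Nat.even_mul_succ_self n).two_dvd)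
        have h4 : (((n + 1).choose 2 * 2 : ℕ) : ℤ) = (((n + 1) * n : ℕ) : ℤ) := by rw [h3]
        push_cast at h4 ⊢
        linarith
    rw [Nat.choose_succ_succ' n 2]
    push_cast
    linarith

/-- `a b (k - 2) / 2` triples of a set with `a + b = k` elements are edges -/
theorem two_count {n : ℕ} (A S : Finset (Fin n)) :
    2 * ((((twoClass A).filter fun e => e ⊆ S).card : ℕ) : ℤ) =
      ((S.filter fun x => x ∈ A).card : ℤ) * ((S.filter fun x => x ∉ A).card : ℤ) *
        ((S.card : ℤ) - 2) := by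
  set a := (S.filter fun x => x ∈ A).card with ha
  set b := (S.filter fun x => x ∉ A).card with hb
  have hab : a + b = S.card := card_filter_add_card_filter_not (s := S) (fun x => x ∈ A)
  have e1 : (S.powersetCard 3).card = ((twoClass A).filter fun e => e ⊆ S).card +
      (((S.filter fun x => x ∈ A).powersetCard 3).card +
        ((S.filter fun x => x ∉ A).powersetCard 3).card) := by
    rw [← card_union_of_disjoint (s := (S.filter fun x => x ∈ A).powersetCard 3)
      (t := (S.filter fun x => x ∉ A).powersetCard 3), ← card_union_of_disjoint]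
    · congr 1
      ext e
      simp only [mem_powersetCard, mem_union, mem_filter, twoClass, mem_univ, true_and]
      constructor
      · rintro ⟨h1, h2⟩
        by_cases h3 : e ⊆ A
        · exact Or.inr (Or.inl ⟨fun x hx => mem_filter.mpr ⟨h1 hx, h3 hx⟩, h2⟩)
        · by_cases h4 : e ⊆ Aᶜ
          · exact Or.inr (Or.inr ⟨fun x hx => mem_filter.mpr ⟨h1 hx, mem_compl.mp (h4 hx)⟩, h2⟩)
          · exact Or.inl ⟨⟨h2, h3, h4⟩, h1⟩
      · rintro (⟨⟨h1, -, -⟩, h2⟩ | ⟨h1, h2⟩ | ⟨h1, h2⟩)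
        · exact ⟨h2, h1⟩
        · exact ⟨h1.trans (filter_subset _ _), h2⟩
        · exact ⟨h1.trans (filter_subset _ _), h2⟩
    · rw [disjoint_left]
      intro e he he2
      obtain ⟨h1, -⟩ := mem_filter.mp he
      obtain ⟨-, -, h2, h3⟩ := mem_filter.mp h1
      rcases mem_union.mp he2 with h4 | h4
      · exact h2 fun x hx => (mem_filter.mp ((mem_powersetCard.mp h4).1 hx)).2
      · exact h3 fun x hx => mem_compl.mpr (mem_filter.mp ((mem_powersetCard.mp h4).1 hx)).2
    · rw [disjoint_left]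
      intro e he he2
      obtain ⟨h1, h2⟩ := mem_powersetCard.mp he
      obtain ⟨h3, -⟩ := mem_powersetCard.mp he2
      have hne : e.Nonempty := card_pos.mp (by omega)
      obtain ⟨x, hx⟩ := hne
      exact (mem_filter.mp (h3 hx)).2 (mem_filter.mp (h1 hx)).2
  rw [card_powersetCard, card_powersetCard, card_powersetCard, ← ha, ← hb, ← hab] at e1
  have e2 := six_choose (a + b)
  have e3 := six_choose a
  have e4 := six_choose b
  have e5 : (((a + b).choose 3 : ℕ) : ℤ) = (((twoClass A).filter fun e => e ⊆ S).card : ℤ) +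
      ((a.choose 3 : ℤ) + (b.choose 3 : ℤ)) := by exact_mod_cast e1
  rw [← hab]
  push_cast at e2 e5 ⊢
  nlinarith [e2, e3, e4, e5]

end Pool.Agent.V308.K5O
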