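import Pool.Agent.Y47.BU.Ord
import Pool.Agent.Y47.BU5.Snd

/-! Decision trees for order-size pairs in 3-graphs without complete 3-graphs on five vertices. -/

set_option autoImplicit false
set_option maxRecDepth 100000
open Finset
open scoped Classical

namespace Pool.Agent.V308.K5O
open Pool.Agent.Y47.BU Pool.Agent.Y47.BU5
open Pool.Agent.H122R2.N6 Pool.Agent.H37R3.Pen Pool.Agent.H37R3.Cop
open Pool.Agent.H37R3.K5 (NoK5 k5b)

/-- the check of a tree: many vertices of an independent class and a few others -/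
def ckS5 (u b m s0 : ℕ) : List (ℕ × ℕ) → Tr → Bool
  | env, .k p => leafK5 m env p
  | env, .f p => Nat.ble (p % 8) s0 && leafS u b m env p
  | env, .n v x y => ckS5 u b m s0 ((v, 0) :: env) x && ckS5 u b m s0 ((v, 1) :: env) y

/-- the check of a tree, listed vertices -/
def ckX5 (k q m : ℕ) : List (ℕ × ℕ) → Tr → Bool
  | env, .k p => leafK5 m env p
  | env, .f p => leafX k q m env p
  | env, .n v x y => ckX5 k q m ((v, 0) :: env) x && ckX5 k q m ((v, 1) :: env) y

section
variable {V : Type} {E : V → V → V → ℕ} {m t : ℕ} {c : ℕ → ℕ → ℕ} {env : List (ℕ × ℕ)}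
  {y : Fin 6 → Fin t → V}

theorem ckS5_sound (hE : Sy E) (hK : NoK5 E) (h : Hom E m c t y)
    (hc : ∀ i j, c i j = 0 ∨ c i j = 1) (h8 : 8 ≤ t) {u b s0 k : ℕ} (hk : s0 ≤ k) (hkt : k ≤ t) :
    ∀ (tr : Tr) (env : List (ℕ × ℕ)), Agree c env → ckS5 u b m s0 env tr = true →
    ∃ e : Fin k → Fin 6 × Fin t, Function.Injective e ∧
      spl E (List.ofFn fun i => y (e i).1 (e i).2) = u * k - b
  | .k p, env, hA, hp => (leafK5_sound hE hK h hA (by omega) hp).elim
  | .f p, env, hA, hp => by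
    have hp' : (Nat.ble (p % 8) s0 && leafS u b m env p) = true := hp
    rw [Bool.and_eq_true] at hp'
    exact leafS_sound hE h hA h8 ((Nat.le_of_ble_eq_true hp'.1).trans hk) hkt hp'.2
  | .n v x z, env, hA, hp => by
    have hp' : (ckS5 u b m s0 ((v, 0) :: env) x && ckS5 u b m s0 ((v, 1) :: env) z) = true := hp
    rw [Bool.and_eq_true] at hp'
    rcases hc (v / 6) (v % 6) with e | e
    · exact ckS5_sound hE hK h hc h8 hk hkt x _ (hA.cons e) hp'.1
    · exact ckS5_sound hE hK h hc h8 hk hkt z _ (hA.cons e) hp'.2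

theorem ckX5_sound (hE : Sy E) (hK : NoK5 E) (h : Hom E m c t y)
    (hc : ∀ i j, c i j = 0 ∨ c i j = 1) (h8 : 8 ≤ t) {k q : ℕ} :
    ∀ (tr : Tr) (env : List (ℕ × ℕ)), Agree c env → ckX5 k q m env tr = true →
    ∃ e : Fin k → Fin 6 × Fin t, Function.Injective e ∧
      spl E (List.ofFn fun i => y (e i).1 (e i).2) = q
  | .k p, env, hA, hp => (leafK5_sound hE hK h hA (by omega) hp).elim
  | .f p, env, hA, hp => leafX_sound hE h hA h8 hp
  | .n v x z, env, hA, hp => by
    have hp' : (ckX5 k q m ((v, 0) :: env) x && ckX5 k q m ((v, 1) :: env) z) = true := hp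
    rw [Bool.and_eq_true] at hp'
    rcases hc (v / 6) (v % 6) with e | e
    · exact ckX5_sound hE hK h hc h8 x _ (hA.cons e) hp'.1
    · exact ckX5_sound hE hK h hc h8 z _ (hA.cons e) hp'.2

end

end Pool.Agent.V308.K5O
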